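import Mathlib
import Pool.Agent.Y328.CC.Stm

/-!
# Project CC (helper328): the order preserving matching of two sets of integers
-/

set_option autoImplicit false

namespace Pool.Agent.Y814.CC

open Pool.Agent.Y328.CC

/-- discrete intermediate value theorem -/
lemma ivt (G γ : ℤ → ℤ) (hγ : ∀ i, γ i = 0 ∨ γ i = 1) (hG : ∀ i, G (i + 1) = G i + γ i)
    (v lo : ℤ) (n : ℕ) (h1 : G lo ≤ v) (h2 : v < G (lo + n)) :
    ∃ y, lo ≤ y ∧ y < lo + n ∧ γ y = 1 ∧ G y = v := by
  induction n with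
  | zero =>
    exfalso
    have : lo + ((0 : ℕ) : ℤ) = lo := by simp
    rw [this] at h2
    omega
  | succ n ih =>
    by_cases hv : v < G (lo + n)
    · obtain ⟨y, hy1, hy2, hy3, hy4⟩ := ih hv
      exact ⟨y, hy1, by push_cast; omega, hy3, hy4⟩
    · have e : lo + ((n + 1 : ℕ) : ℤ) = lo + n + 1 := by push_cast; ring
      rw [e, hG (lo + n)] at h2
      rcases hγ (lo + n) with h0 | h0
      · rw [h0] at h2; omega
      · refine ⟨lo + n, by omega, by push_cast; omega, h0, ?_⟩
        rw [h0] at h2; omega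

lemma mono_of (G γ : ℤ → ℤ) (hγ : ∀ i, γ i = 0 ∨ γ i = 1) (hG : ∀ i, G (i + 1) = G i + γ i) :
    Monotone G := by
  apply monotone_int_of_le_succ
  intro i
  rw [hG i]
  rcases hγ i with h | h <;> omega

lemma uniq (G γ : ℤ → ℤ) (hγ : ∀ i, γ i = 0 ∨ γ i = 1) (hG : ∀ i, G (i + 1) = G i + γ i)
    {y z : ℤ} (hy : γ y = 1) (hz : γ z = 1) (hyz : G y = G z) : y = z := by
  have hm := mono_of G γ hγ hG
  have key : ∀ a b : ℤ, γ a = 1 → G a = G b → ¬ a < b := by
    intro a b ha hab hlt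
    have h1 : G (a + 1) ≤ G b := hm (by omega)
    rw [hG a, ha] at h1
    omega
  rcases lt_trichotomy y z with h | h | h
  · exact absurd h (key y z hy hyz)
  · exact h
  · exact absurd h (key z y hz hyz.symm)

theorem t_SEQ : S_SEQ := by
  intro α β Ac Bc f R hα hβ hA hB hf h1 h2
  -- the constant
  have hstep : ∀ i, Bc (i + 1) + f (i + 1) - Ac (i + 1) = Bc i + f i - Ac i := by
    intro i
    have e1 := hA i
    have e2 := hB i
    have e3 := hf i
    omega
  have hconst : ∀ i, Bc i + f i - Ac i = Bc 0 + f 0 - Ac 0 := by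
    intro i
    induction i using Int.induction_on with
    | zero => rfl
    | succ i ih => rw [hstep]; exact ih
    | pred i ih =>
      have := hstep (-(i : ℤ) - 1)
      have e : -(i : ℤ) - 1 + 1 = -i := by ring
      rw [e] at this
      omega
  obtain ⟨c, hc⟩ : ∃ c, ∀ i, Bc i + f i - Ac i = c := ⟨_, hconst⟩
  have hmA := mono_of Ac α hα hA
  have hmB := mono_of Bc β hβ hB
  constructor
  · intro x hx
    have k0 := hc x
    have l1 : Bc (x - R) ≤ Bc x + f x := by
      have k1 := hc (x - R)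
      have k2 := h1 (x - R)
      have e : x - (R : ℤ) + R = x := by ring
      rw [e] at k2
      omega
    have l2 : Bc x + f x < Bc (x - R + ((2 * R + 1 : ℕ) : ℤ)) := by
      have e0 : x - (R : ℤ) + ((2 * R + 1 : ℕ) : ℤ) = x + R + 1 := by push_cast; ring
      rw [e0]
      have k1 := hc (x + R + 1)
      have k2 := h2 (x + R + 1)
      have e : x + (R : ℤ) + 1 - R = x + 1 := by ring
      rw [e, hA x, hx] at k2
      omega
    obtain ⟨y, hy1, hy2, hy3, hy4⟩ := ivt Bc β hβ hB (Bc x + f x) (x - R) (2 * R + 1) l1 l2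
    refine ⟨y, ⟨⟨hy1, ?_⟩, hy3, hy4⟩, ?_⟩
    · push_cast at hy2; omega
    · rintro z ⟨-, hz3, hz4⟩
      exact uniq Bc β hβ hB hz3 hy3 (by rw [hz4, hy4])
  · intro y hy
    have k0 := hc y
    have l1 : Ac (y - R) ≤ Bc y - c := by
      have k2 := h2 y
      omega
    have l2 : Bc y - c < Ac (y - R + ((2 * R + 1 : ℕ) : ℤ)) := by
      have e0 : y - (R : ℤ) + ((2 * R + 1 : ℕ) : ℤ) = y + 1 + R := by push_cast; ring
      rw [e0]
      have k1 := hc (y + 1)
      have k2 := h1 (y + 1)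
      have k3 := hB y
      omega
    obtain ⟨x, hx1, hx2, hx3, hx4⟩ := ivt Ac α hα hA (Bc y - c) (y - R) (2 * R + 1) l1 l2
    refine ⟨x, ⟨⟨hx1, ?_⟩, hx3, ?_⟩, ?_⟩
    · push_cast at hx2; omega
    · have := hc x
      omega
    · rintro z ⟨-, hz3, hz4⟩
      refine uniq Ac α hα hA hz3 hx3 ?_
      have := hc z
      omega

end Pool.Agent.Y814.CC
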